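import Mathlib

/-!
# Mordell curves `y² = x³ + b` over `ℚ`: addition formulas
-/

set_option autoImplicit false

namespace Pool.Agent.X99.MC

open WeierstrassCurve WeierstrassCurve.Affine

/-- The curve `y² = x³ + b` over `ℚ`. -/
def W (b : ℚ) : WeierstrassCurve ℚ := ⟨0, 0, 0, 0, b⟩

lemma W_Δ (b : ℚ) : (W b).Δ = -432 * b ^ 2 := by
  simp only [W, WeierstrassCurve.Δ, WeierstrassCurve.b₂, WeierstrassCurve.b₄, WeierstrassCurve.b₆,
    WeierstrassCurve.b₈]
  ring

lemma eq_iff (b x y : ℚ) : (W b).toAffine.Equation x y ↔ y ^ 2 = x ^ 3 + b := by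
  rw [WeierstrassCurve.Affine.equation_iff]
  simp [W, WeierstrassCurve.toAffine]

lemma nonsing {b x y : ℚ} (hb : b ≠ 0) (h : y ^ 2 = x ^ 3 + b) : (W b).toAffine.Nonsingular x y := by
  rw [← WeierstrassCurve.Affine.equation_iff_nonsingular_of_Δ_ne_zero, eq_iff]
  · exact h
  · show (W b).Δ ≠ 0
    rw [W_Δ]
    exact mul_ne_zero (by norm_num) (pow_ne_zero 2 hb)

lemma eq_of {b x y : ℚ} (h : (W b).toAffine.Nonsingular x y) : y ^ 2 = x ^ 3 + b :=
  (eq_iff b x y).1 h.1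

lemma negY (b x y : ℚ) : (W b).toAffine.negY x y = -y := by
  simp [WeierstrassCurve.Affine.negY, W, WeierstrassCurve.toAffine]

lemma double {b x y : ℚ} (h : (W b).toAffine.Nonsingular x y) (hy : y ≠ 0) :
    ∃ (x' y' : ℚ) (h' : (W b).toAffine.Nonsingular x' y'),
      Point.some x y h + Point.some x y h = Point.some x' y' h' ∧
      x' = x * (x ^ 3 - 8 * b) / (4 * (x ^ 3 + b)) := by
  have hne : y ≠ (W b).toAffine.negY x y := by
    rw [negY]
    intro h1
    apply hy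
    linarith
  refine ⟨_, _, _, Point.add_self_of_Y_ne hne, ?_⟩
  have e := eq_of h
  rw [WeierstrassCurve.Affine.slope_of_Y_ne rfl hne, negY]
  have h2 : y - -y = 2 * y := by ring
  rw [h2, ← e]
  simp only [WeierstrassCurve.Affine.addX, W, WeierstrassCurve.toAffine]
  have h3 : x ^ 3 = y ^ 2 - b := by linarith
  field_simp
  have h4 : x ^ 4 = x * (y ^ 2 - b) := by rw [← h3]; ring
  linear_combination (32 : ℚ) * h4

lemma sub {b x₁ y₁ x₂ y₂ : ℚ} (h₁ : (W b).toAffine.Nonsingular x₁ y₁)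
    (h₂ : (W b).toAffine.Nonsingular x₂ y₂) (hx : x₁ ≠ x₂) :
    ∃ (x' y' : ℚ) (h' : (W b).toAffine.Nonsingular x' y'),
      Point.some x₁ y₁ h₁ - Point.some x₂ y₂ h₂ = Point.some x' y' h' ∧
      x' = ((y₁ + y₂) / (x₁ - x₂)) ^ 2 - x₁ - x₂ := by
  rw [sub_eq_add_neg, Point.neg_some]
  refine ⟨_, _, _, Point.add_of_X_ne hx, ?_⟩
  rw [WeierstrassCurve.Affine.slope_of_X_ne hx, negY]
  simp only [WeierstrassCurve.Affine.addX, W, WeierstrassCurve.toAffine]
  ring

end Pool.Agent.X99.MC
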