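import Pool.Agent.X99.MC.Main

/-!
# Mordell curves of positive rank along geometric progressions: the construction
-/

set_option autoImplicit false

namespace Pool.Agent.X99.MC

open WeierstrassCurve WeierstrassCurve.Affine

/-- Every point of infinite order has a multiple which is close to the origin, 2-adically and
3-adically. -/
lemma exists_near {a : ℤ} (ha : a ≠ 0) {P : (W a).toAffine.Point}
    (hP : ∀ n : ℕ, n ≠ 0 → n • P ≠ 0) :
    ∃ r u : ℚ, u ^ 2 = r ^ 3 + a ∧ 1 < nm 2 r ∧ 1 < nm 3 r := by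
  have hint2 : nm 2 (a : ℚ) ≤ 1 := nm_int 2 a
  -- first step: close to the origin 2-adically
  have hdist : ∀ {R : (W a).toAffine.Point}, (∀ n : ℕ, n ≠ 0 → n • R ≠ 0) → ∀ {i j : ℕ}, i < j →
      0 < i → j • R ≠ i • R ∧ j • R ≠ -(i • R) := by
    intro R hR i j hij hi
    constructor
    · intro h
      apply hR (j - i) (by omega)
      have h1 : j • R = (j - i) • R + i • R := by rw [← add_smul, Nat.sub_add_cancel hij.le]
      rw [h1] at h
      exact add_eq_right.1 h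
    · intro h
      apply hR (j + i) (by omega)
      rw [add_smul, h, neg_add_cancel]
  have hdist' : ∀ {R : (W a).toAffine.Point}, (∀ n : ℕ, n ≠ 0 → n • R ≠ 0) → ∀ {i j : ℕ}, i ≠ j →
      0 < i → 0 < j → j • R ≠ i • R ∧ j • R ≠ -(i • R) := by
    intro R hR i j hij hi hj
    rcases lt_or_gt_of_ne hij with h | h
    · exact hdist hR h hi
    · obtain ⟨h1, h2⟩ := hdist hR h hj
      refine ⟨h1.symm, fun h3 => h2 ?_⟩
      rw [h3, neg_neg]
  obtain ⟨R₁, x₁, y₁, h₁, hR₁, hR₁', hx₁⟩ := near 2 ha (fun n => (n + 1) • P)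
    (fun n => hP _ (Nat.succ_ne_zero n))
    (fun n => by
      show (n + 1) • P + (n + 1) • P ≠ 0
      rw [← add_smul]
      exact hP _ (by omega))
    (fun m n hmn => hdist' hP (by omega) (by omega) (by omega))
  obtain ⟨c, hc, hRc⟩ : ∃ c : ℕ, c ≠ 0 ∧ R₁ = c • P := by
    rcases hR₁ with ⟨n, h⟩ | ⟨n, h⟩ | ⟨m, n, hmn, h⟩
    · exact ⟨n + 1, by omega, h⟩
    · exact ⟨(n + 1) + (n + 1), by omega, by rw [h, add_smul (n + 1) (n + 1) P]⟩
    · refine ⟨m - n, by omega, ?_⟩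
      rw [h, sub_eq_iff_eq_add, ← add_smul]
      congr 1
      omega
  have hR₁n : ∀ n : ℕ, n ≠ 0 → n • R₁ ≠ 0 := by
    intro n hn
    rw [hRc, ← mul_smul]
    exact hP _ (mul_ne_zero hn hc)
  have hb₁ : nm 2 (a : ℚ) < nm 2 x₁ ^ 3 := lt_of_le_of_lt hint2 (one_lt_pow₀ hx₁ (by norm_num))
  -- second step: the points `2 ^ k R₁`
  have hQ := doubling hR₁' hb₁
  obtain ⟨R₂, x₂, y₂, h₂, hR₂, hR₂', hx₂⟩ := near 3 ha (fun k => (2 ^ k) • R₁)
    (fun k => hR₁n _ (pow_ne_zero k two_ne_zero))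
    (fun k => by
      show (2 ^ k) • R₁ + (2 ^ k) • R₁ ≠ 0
      rw [← add_smul]
      exact hR₁n _ (by positivity))
    (fun m n hmn => by
      refine hdist' hR₁n (fun h => hmn ?_) (by positivity) (by positivity)
      exact (Nat.pow_right_injective (le_refl 2) h).symm)
  refine ⟨x₂, y₂, eq_of h₂, ?_, hx₂⟩
  have hx₁0 : 0 < nm 2 x₁ := lt_trans one_pos hx₁
  have hbig : ∀ k : ℕ, 1 < (4 : ℝ) ^ k * nm 2 x₁ := by
    intro k
    have : (1 : ℝ) ≤ 4 ^ k := one_le_pow₀ (by norm_num)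
    nlinarith
  rcases hR₂ with ⟨n, h⟩ | ⟨n, h⟩ | ⟨m, n, hmn, h⟩
  · obtain ⟨x', y', h', e1, e2⟩ := hQ n
    rw [hR₂', e1, Point.some.injEq] at h
    rw [h.1, e2]
    exact hbig n
  · obtain ⟨x', y', h', e1, e2⟩ := hQ (n + 1)
    have e3 : (2 ^ n) • R₁ + (2 ^ n) • R₁ = (2 ^ (n + 1)) • R₁ := by
      rw [← add_smul]
      congr 1
      ring
    rw [e3, hR₂', e1, Point.some.injEq] at h
    rw [h.1, e2]
    exact hbig (n + 1)
  · obtain ⟨x', y', h', e1, e2⟩ := hQ m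
    obtain ⟨x'', y'', h'', f1, f2⟩ := hQ n
    have hlt : nm 2 x'' < nm 2 x' := by
      rw [e2, f2]
      exact mul_lt_mul_of_pos_right (pow_lt_pow_right₀ (by norm_num) hmn) hx₁0
    have hne : x' ≠ x'' := by
      rintro rfl
      exact lt_irrefl _ hlt
    obtain ⟨x₃, y₃, h₃, g1, g2⟩ := sub h' h'' hne
    rw [hR₂', e1, f1, g1, Point.some.injEq] at h
    rw [h.1, g2, sub_nm (eq_of h') (eq_of h'') (by rw [f2]; exact hbig n) hlt, f2]
    exact hbig n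

/-- there is a point with a 2-adically large `x`-coordinate -/
def Good (b : ℚ) : Prop := ∃ x y : ℚ, y ^ 2 = x ^ 3 + b ∧ nm 2 b < nm 2 x ^ 3

lemma Good.scale {b : ℚ} (h : Good b) {s : ℚ} (hs : s ≠ 0) : Good (b * s ^ 6) := by
  obtain ⟨x, y, h1, h2⟩ := h
  refine ⟨s ^ 2 * x, s ^ 3 * y, ?_, ?_⟩
  · rw [mul_pow, h1]
    ring
  · rw [nm_mul, nm_mul, nm_pow, nm_pow]
    have h3 : 0 < nm 2 s := nm_pos 2 hs
    have e : (nm 2 s ^ 2 * nm 2 x) ^ 3 = nm 2 x ^ 3 * nm 2 s ^ 6 := by ring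
    rw [e]
    exact mul_lt_mul_of_pos_right h2 (by positivity)

lemma nm_two_odd {n : ℕ} (h : ¬ 2 ∣ n) : nm 2 (n : ℚ) = 1 := nm_nat_coprime 2 h

/-- the isogeny of degree three -/
lemma Good.isog {b : ℚ} (h : Good b) : Good (-27 * b) := by
  obtain ⟨x, y, h1, h2⟩ := h
  have hx0 : 0 < nm 2 x := by
    have h3 : 0 < nm 2 x ^ 3 := lt_of_le_of_lt (nm_nonneg 2 b) h2
    by_contra h4
    have h5 : nm 2 x = 0 := le_antisymm (not_lt.1 h4) (nm_nonneg 2 x)
    rw [h5] at h3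
    norm_num at h3
  have hx : x ≠ 0 := ne_of_nm_pos 2 hx0
  refine ⟨(x ^ 3 + 4 * b) / x ^ 2, y * (x ^ 3 - 8 * b) / x ^ 3, ?_, ?_⟩
  · rw [div_pow, mul_pow, h1]
    field_simp
    ring
  · have h4 : nm 2 4 = 1 / 4 := by
      have : (4 : ℚ) = 2 ^ 2 := by norm_num
      rw [this, nm_pow, nm_two_two]
      norm_num
    have h27 : nm 2 27 = 1 := by
      have := nm_two_odd (n := 27) (by norm_num)
      exact_mod_cast this
    have e1 : nm 2 ((x ^ 3 + 4 * b) / x ^ 2) = nm 2 x := by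
      rw [nm_div, nm_add, nm_pow, nm_pow]
      · field_simp
      · rw [nm_mul, h4, nm_pow]
        have := nm_nonneg 2 b
        linarith
    have e2 : nm 2 (-27 * b) = nm 2 b := by
      rw [nm_mul, nm_neg, h27, one_mul]
    rw [e1, e2]
    exact h2

/-- the first polynomial -/
def G (a U : ℚ) : ℚ := U ^ 2 - 18 * a * U + a ^ 2

/-- the second polynomial -/
def D (a U : ℚ) : ℚ := 3 * U + a

section

variable {a r u : ℚ} (h : u ^ 2 = r ^ 3 + a)

include h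

lemma good_one (ha2 : nm 2 a ≤ 1) (hr : 1 < nm 2 r) (m : ℚ) (hm : m ≠ 0) :
    Good (a * (G a (r ^ 3 + a) * D a (r ^ 3 + a) * m ^ 3) ^ 2) ∧
    Good (a * (G a (r ^ 3 + a) * D a (r ^ 3 + a) * m ^ 3) ^ 4) ∧
    G a (r ^ 3 + a) * D a (r ^ 3 + a) ≠ 0 := by
  set U := r ^ 3 + a with hU
  have hr0 : 0 < nm 2 r := lt_trans one_pos hr
  have hm0 : 0 < nm 2 m := nm_pos 2 hm
  have hr3 : 1 < nm 2 r ^ 3 := one_lt_pow₀ hr (by norm_num)
  have nU : nm 2 U = nm 2 r ^ 3 := by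
    rw [hU, nm_add, nm_pow]
    rw [nm_pow]
    exact lt_of_le_of_lt ha2 hr3
  have h3 : nm 2 3 = 1 := by
    have := nm_two_odd (n := 3) (by norm_num)
    exact_mod_cast this
  have n18 : nm 2 (18 * a * U) < nm 2 (U ^ 2) := by
    rw [nm_mul, nm_mul, nm_pow, nU]
    have h18 : nm 2 18 ≤ 1 := by
      have := nm_int 2 18
      exact_mod_cast this
    have h5 : nm 2 18 * nm 2 a ≤ 1 := by
      have := nm_nonneg 2 (18 : ℚ)
      have := nm_nonneg 2 a
      nlinarith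
    have h6 : 0 < nm 2 r ^ 3 := by positivity
    nlinarith
  have nG : nm 2 (G a U) = nm 2 r ^ 6 := by
    unfold G
    have e : U ^ 2 - 18 * a * U + a ^ 2 = (U ^ 2 - 18 * a * U) + a ^ 2 := by ring
    rw [e, nm_add, nm_sub, nm_pow, nU]
    · ring
    · exact n18
    · rw [nm_sub 2 n18, nm_pow, nm_pow, nU]
      have h7 : nm 2 a ^ 2 ≤ 1 := pow_le_one₀ (nm_nonneg 2 a) ha2
      have h8 : 1 < (nm 2 r ^ 3) ^ 2 := one_lt_pow₀ hr3 (by norm_num)
      linarith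
  have nD : nm 2 (D a U) = nm 2 r ^ 3 := by
    unfold D
    rw [nm_add, nm_mul, h3, one_mul, nU]
    rw [nm_mul, h3, one_mul, nU]
    exact lt_of_le_of_lt ha2 hr3
  have hG0 : G a U ≠ 0 := ne_of_nm_pos 2 (by rw [nG]; positivity)
  have hD0 : D a U ≠ 0 := ne_of_nm_pos 2 (by rw [nD]; positivity)
  have hU2 : u ^ 2 = U := h
  have hr3' : r ^ 3 = U - a := by rw [hU]; ring
  refine ⟨⟨G a U * m ^ 2 * r, G a U * m ^ 3 * u * (5 * a - U), ?_, ?_⟩,
    ⟨G a U ^ 2 * m ^ 4 * r, G a U ^ 2 * m ^ 6 * u * (U ^ 2 + 22 * a * U - 7 * a ^ 2), ?_, ?_⟩,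
    mul_ne_zero hG0 hD0⟩
  · rw [mul_pow, mul_pow (G a U * m ^ 3) u, hU2, mul_pow (G a U * m ^ 2) r, hr3']
    unfold G D
    ring
  · rw [nm_mul, nm_pow, nm_mul, nm_mul, nm_mul, nm_mul, nm_pow, nm_pow, nG, nD]
    have e : (nm 2 r ^ 6 * nm 2 m ^ 2 * nm 2 r) ^ 3 =
      nm 2 r ^ 3 * ((nm 2 r ^ 6 * nm 2 r ^ 3 * nm 2 m ^ 3) ^ 2) := by ring
    rw [e]
    exact mul_lt_mul_of_pos_right (lt_of_le_of_lt ha2 hr3) (by positivity)
  · rw [mul_pow, mul_pow (G a U ^ 2 * m ^ 6) u, hU2, mul_pow (G a U ^ 2 * m ^ 4) r, hr3']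
    unfold G D
    ring
  · rw [nm_mul, nm_pow, nm_mul, nm_mul, nm_mul, nm_mul, nm_pow, nm_pow, nm_pow, nG, nD]
    have e : ((nm 2 r ^ 6) ^ 2 * nm 2 m ^ 4 * nm 2 r) ^ 3 =
      nm 2 r ^ 3 * ((nm 2 r ^ 6 * nm 2 r ^ 3 * nm 2 m ^ 3) ^ 4) := by ring
    rw [e]
    exact mul_lt_mul_of_pos_right (lt_of_le_of_lt ha2 hr3) (by positivity)

omit h in
lemma nm_three_G (ha3 : nm 3 a ≤ 1) (hr : 1 < nm 3 r) :
    nm 3 (G a (r ^ 3 + a) * D a (r ^ 3 + a)) = nm 3 r ^ 9 / 3 := by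
  set U := r ^ 3 + a with hU
  have hr0 : 0 < nm 3 r := lt_trans one_pos hr
  have hr3 : 1 < nm 3 r ^ 3 := one_lt_pow₀ hr (by norm_num)
  have nU : nm 3 U = nm 3 r ^ 3 := by
    rw [hU, nm_add, nm_pow]
    rw [nm_pow]
    exact lt_of_le_of_lt ha3 hr3
  have n18 : nm 3 (18 * a * U) < nm 3 (U ^ 2) := by
    rw [nm_mul, nm_mul, nm_pow, nU]
    have h18 : nm 3 18 ≤ 1 := by
      have := nm_int 3 18
      exact_mod_cast this
    have h5 : nm 3 18 * nm 3 a ≤ 1 := by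
      have := nm_nonneg 3 (18 : ℚ)
      have := nm_nonneg 3 a
      nlinarith
    have h6 : 0 < nm 3 r ^ 3 := by positivity
    nlinarith
  have nG : nm 3 (G a U) = nm 3 r ^ 6 := by
    unfold G
    have e : U ^ 2 - 18 * a * U + a ^ 2 = (U ^ 2 - 18 * a * U) + a ^ 2 := by ring
    rw [e, nm_add, nm_sub, nm_pow, nU]
    · ring
    · exact n18
    · rw [nm_sub 3 n18, nm_pow, nm_pow, nU]
      have h7 : nm 3 a ^ 2 ≤ 1 := pow_le_one₀ (nm_nonneg 3 a) ha3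
      have h8 : 1 < (nm 3 r ^ 3) ^ 2 := one_lt_pow₀ hr3 (by norm_num)
      linarith
  -- the size of `r` is a power of three greater than one, so its cube is at least `27`
  have hr27 : 27 ≤ nm 3 r ^ 3 := by
    have hr' : r ≠ 0 := ne_of_nm_pos 3 hr0
    obtain ⟨n, hn⟩ := Padic.padicNormE.image (p := 3) (q := (r : ℚ_[3])) (by exact_mod_cast hr')
    have hn' : nm 3 r = (3 : ℝ) ^ (-n) := by
      unfold nm
      rw [hn]
      push_cast
      rfl
    have hn1 : 1 ≤ -n := by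
      by_contra hcon
      have h9 : -n ≤ 0 := by omega
      have h10 : (3 : ℝ) ^ (-n) ≤ 1 := zpow_le_one_of_nonpos₀ (by norm_num) h9
      rw [hn'] at hr
      linarith
    have h11 : (3 : ℝ) ≤ nm 3 r := by
      rw [hn']
      calc (3 : ℝ) = 3 ^ (1 : ℤ) := by norm_num
        _ ≤ 3 ^ (-n) := zpow_le_zpow_right₀ (by norm_num) hn1
    calc (27 : ℝ) = 3 ^ 3 := by norm_num
      _ ≤ nm 3 r ^ 3 := pow_le_pow_left₀ (by norm_num) h11 3
  have nD : nm 3 (D a U) = nm 3 r ^ 3 / 3 := by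
    unfold D
    rw [nm_add, nm_mul, nm_three_three, nU]
    · ring
    · rw [nm_mul, nm_three_three, nU]
      linarith
  rw [nm_mul, nG, nD]
  ring

end

/-- the geometric progression -/
lemma good_all {a : ℚ} {q : ℚ} (hq : q ≠ 0) (h0 : Good a) (h1 : Good (a * q ^ 2))
    (h2 : Good (a * q ^ 4)) (i : ℕ) : Good (a * (-27 * q ^ 2) ^ i) := by
  have key : ∀ i : ℕ, Good (a * (-27 * q ^ 2) ^ i) ∧ Good (a * (-27 * q ^ 2) ^ (i + 1)) ∧
      Good (a * (-27 * q ^ 2) ^ (i + 2)) := by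
    intro i
    induction i with
    | zero =>
      refine ⟨by simpa using h0, ?_, ?_⟩
      · have := h1.isog
        have e : a * (-27 * q ^ 2) ^ (0 + 1) = -27 * (a * q ^ 2) := by ring
        rw [e]
        exact this
      · have := h2.scale (s := 3) (by norm_num)
        have e : a * (-27 * q ^ 2) ^ (0 + 2) = a * q ^ 4 * 3 ^ 6 := by ring
        rw [e]
        exact this
    | succ i ih =>
      obtain ⟨i1, i2, i3⟩ := ih
      refine ⟨i2, i3, ?_⟩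
      have := i1.isog.scale (s := 3 * q) (mul_ne_zero (by norm_num) hq)
      have e : a * (-27 * q ^ 2) ^ (i + 1 + 2) = -27 * (a * (-27 * q ^ 2) ^ i) * (3 * q) ^ 6 := by
        ring
      rw [e]
      exact this
  exact (key i).1

end Pool.Agent.X99.MC
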