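import Pool.Agent.X99.MC.Near

/-!
# Mordell curves of positive rank along geometric progressions
-/

set_option autoImplicit false

namespace Pool.Agent.X99.MC

open WeierstrassCurve WeierstrassCurve.Affine

/-- 2-adic size of the `x`-coordinate of the difference of two points of different sizes -/
lemma sub_nm {a : ℤ} {x₁ y₁ x₂ y₂ : ℚ} (e₁ : y₁ ^ 2 = x₁ ^ 3 + a) (e₂ : y₂ ^ 2 = x₂ ^ 3 + a)
    (h2 : 1 < nm 2 x₂) (h12 : nm 2 x₂ < nm 2 x₁) :
    nm 2 (((y₁ + y₂) / (x₁ - x₂)) ^ 2 - x₁ - x₂) = nm 2 x₂ := by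
  have hint : nm 2 (a : ℚ) ≤ 1 := nm_int 2 a
  have h1 : 1 < nm 2 x₁ := h2.trans h12
  have hb1 : nm 2 (a : ℚ) < nm 2 x₁ ^ 3 := lt_of_le_of_lt hint (one_lt_pow₀ h1 (by norm_num))
  have hb2 : nm 2 (a : ℚ) < nm 2 x₂ ^ 3 := lt_of_le_of_lt hint (one_lt_pow₀ h2 (by norm_num))
  have hy1 := y_big 2 e₁ hb1
  have hy2 := y_big 2 e₂ hb2
  have hne : x₁ ≠ x₂ := by
    rintro rfl
    exact lt_irrefl _ h12
  have hne' : x₁ - x₂ ≠ 0 := sub_ne_zero.2 hne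
  have e : ((y₁ + y₂) / (x₁ - x₂)) ^ 2 - x₁ - x₂ =
      (x₁ ^ 2 * x₂ + (x₁ * x₂ ^ 2 + (2 * a + 2 * (y₁ * y₂)))) / (x₁ - x₂) ^ 2 := by
    rw [div_pow, eq_div_iff (pow_ne_zero 2 hne')]
    have : (y₁ + y₂) ^ 2 = y₁ ^ 2 + y₂ ^ 2 + 2 * (y₁ * y₂) := by ring
    rw [this, e₁, e₂]
    field_simp
    ring
  have n1 : nm 2 (x₁ ^ 2 * x₂) = nm 2 x₁ ^ 2 * nm 2 x₂ := by rw [nm_mul, nm_pow]
  set X := nm 2 x₁ with hX
  set Z := nm 2 x₂ with hZ
  have hXZ : 0 < X ^ 2 * Z := by positivity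
  have n2 : nm 2 (x₁ * x₂ ^ 2) < X ^ 2 * Z := by
    rw [nm_mul, nm_pow, ← hX, ← hZ]
    have : X * Z ^ 2 = (X * Z) * Z := by ring
    have h' : X ^ 2 * Z = (X * Z) * X := by ring
    rw [this, h']
    exact mul_lt_mul_of_pos_left h12 (by positivity)
  have n3 : nm 2 (2 * a : ℚ) < X ^ 2 * Z := by
    rw [nm_mul, nm_two_two]
    have : 1 < X ^ 2 * Z := by
      have h5 : 1 < X ^ 2 := one_lt_pow₀ h1 (by norm_num)
      nlinarith
    nlinarith [nm_nonneg 2 (a : ℚ)]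
  have n4 : nm 2 (2 * (y₁ * y₂)) < X ^ 2 * Z := by
    rw [nm_mul, nm_two_two, nm_mul]
    have h6 : (nm 2 y₁ * nm 2 y₂) ^ 2 < (X ^ 2 * Z) ^ 2 := by
      rw [mul_pow, hy1, hy2]
      have : (X ^ 2 * Z) ^ 2 = X ^ 3 * Z ^ 2 * X := by ring
      rw [this]
      have h' : X ^ 3 * Z ^ 3 = X ^ 3 * Z ^ 2 * Z := by ring
      rw [h']
      exact mul_lt_mul_of_pos_left h12 (by positivity)
    have h7 : nm 2 y₁ * nm 2 y₂ < X ^ 2 * Z := lt_of_pow_lt_pow_left₀ 2 hXZ.le h6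
    have h8 : 0 ≤ nm 2 y₁ * nm 2 y₂ := mul_nonneg (nm_nonneg 2 _) (nm_nonneg 2 _)
    linarith
  rw [e, nm_div, nm_add, n1, nm_pow, nm_sub]
  · rw [← hX]
    field_simp
  · exact h12
  · rw [n1]
    exact nm_add_lt 2 n2 (nm_add_lt 2 n3 n4)

/-- repeated doubling -/
lemma doubling {b : ℚ} {R : (W b).toAffine.Point} {x y : ℚ}
    {h : (W b).toAffine.Nonsingular x y} (hR : R = Point.some x y h) (hx : nm 2 b < nm 2 x ^ 3) :
    ∀ k : ℕ, ∃ (x' y' : ℚ) (h' : (W b).toAffine.Nonsingular x' y'),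
      (2 ^ k) • R = Point.some x' y' h' ∧ nm 2 x' = 4 ^ k * nm 2 x := by
  have hx0 : 0 ≤ nm 2 x := nm_nonneg 2 x
  intro k
  induction k with
  | zero => exact ⟨x, y, h, by rw [pow_zero, one_smul, hR], by rw [pow_zero, one_mul]⟩
  | succ k ih =>
    obtain ⟨x', y', h', h1, h2⟩ := ih
    have h3 : nm 2 b < nm 2 x' ^ 3 := by
      rw [h2, mul_pow]
      have h4 : (1 : ℝ) ≤ (4 ^ k) ^ 3 := one_le_pow₀ (one_le_pow₀ (by norm_num))
      nlinarith [pow_nonneg hx0 3]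
    have hy : y' ≠ 0 := by
      intro h5
      have h6 := y_big 2 (eq_of h') h3
      rw [h5, nm_zero] at h6
      have h7 : 0 ≤ nm 2 b := nm_nonneg 2 b
      nlinarith
    obtain ⟨x'', y'', h'', h8, h9⟩ := double h' hy
    refine ⟨x'', y'', h'', ?_, ?_⟩
    · rw [pow_succ, mul_smul, two_nsmul, nsmul_add, h1, h8]
    · rw [h9, double_nm h3, h2, pow_succ]
      ring

/-- **Criterion.** A point with a 2-adically large `x`-coordinate has infinite order. -/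
lemma criterion {b : ℚ} {x y : ℚ} (h : (W b).toAffine.Nonsingular x y)
    (hx : nm 2 b < nm 2 x ^ 3) (n : ℕ) (hn : n ≠ 0) : n • Point.some x y h ≠ 0 := by
  intro h0
  have hx0 : 0 < nm 2 x := by
    have h1 : 0 < nm 2 x ^ 3 := lt_of_le_of_lt (nm_nonneg 2 b) hx
    by_contra h2
    have h3 : nm 2 x = 0 := le_antisymm (not_lt.1 h2) (nm_nonneg 2 x)
    rw [h3] at h1
    norm_num at h1
  have hfin : IsOfFinAddOrder (Point.some x y h) :=
    isOfFinAddOrder_iff_nsmul_eq_zero.2 ⟨n, Nat.pos_of_ne_zero hn, h0⟩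
  have h1 : (AddSubmonoid.multiples (Point.some x y h) : Set (W b).toAffine.Point).Finite :=
    hfin.finite_multiples
  have hinj : Function.Injective (fun k : ℕ => (2 ^ k) • Point.some x y h) := by
    intro j k hjk
    obtain ⟨x₁, y₁, h₁, e₁, e₁'⟩ := doubling rfl hx j
    obtain ⟨x₂, y₂, h₂, e₂, e₂'⟩ := doubling rfl hx k
    simp only at hjk
    rw [e₁, e₂, Point.some.injEq] at hjk
    rw [hjk.1, e₂'] at e₁'
    have h4 : (4 : ℝ) ^ k = 4 ^ j := mul_right_cancel₀ hx0.ne' e₁'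
    exact (pow_right_injective₀ (by norm_num) (by norm_num) h4).symm
  refine Set.infinite_of_injective_forall_mem hinj (fun k => ?_) h1
  rw [SetLike.mem_coe, AddSubmonoid.mem_multiples_iff]
  exact ⟨2 ^ k, rfl⟩

end Pool.Agent.X99.MC
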