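import Pool.Agent.X99.MC.Norm

/-!
# Mordell curves: multiples of a point that are close to the origin
-/

set_option autoImplicit false

namespace Pool.Agent.X99.MC

open WeierstrassCurve WeierstrassCurve.Affine

/-- a nonzero point of the curve has coordinates -/
lemma exists_some {b : ℚ} {P : (W b).toAffine.Point} (h : P ≠ 0) :
    ∃ (x y : ℚ) (hxy : (W b).toAffine.Nonsingular x y), P = Point.some x y hxy := by
  rcases P with _ | ⟨x, y, hxy⟩
  · exact absurd rfl h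
  · exact ⟨x, y, hxy, rfl⟩

lemma nm_two_ge (p : ℕ) [Fact p.Prime] : 1 / 2 ≤ nm p 2 := by
  by_cases h : p = 2
  · subst h
    rw [nm_two_two]
  · have h1 : nm p ((2 : ℕ) : ℚ) = 1 := by
      apply nm_nat_coprime
      intro h2
      exact h ((Nat.prime_dvd_prime_iff_eq Fact.out Nat.prime_two).1 h2)
    have h2 : nm p 2 = 1 := by exact_mod_cast h1
    rw [h2]
    norm_num

/-- **Pigeonhole.** -/
lemma near (p : ℕ) [Fact p.Prime] {a : ℤ} (ha : a ≠ 0) (Q : ℕ → (W a).toAffine.Point)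
    (h0 : ∀ n, Q n ≠ 0) (h2 : ∀ n, Q n + Q n ≠ 0) (hd : ∀ m n, m ≠ n → Q m ≠ Q n ∧ Q m ≠ - Q n) :
    ∃ (R : (W a).toAffine.Point) (x y : ℚ) (h : (W a).toAffine.Nonsingular x y),
      ((∃ n, R = Q n) ∨ (∃ n, R = Q n + Q n) ∨ ∃ m n, n < m ∧ R = Q m - Q n) ∧
      R = Point.some x y h ∧ 1 < nm p x := by
  by_contra hcon
  push Not at hcon
  have hint : nm p (a : ℚ) ≤ 1 := nm_int p a
  have haQ : (a : ℚ) ≠ 0 := by exact_mod_cast ha
  -- the coordinates
  choose x y hxy hQ using fun n => exists_some (h0 n)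
  have hx : ∀ n, nm p (x n) ≤ 1 := fun n => hcon (Q n) _ _ _ (Or.inl ⟨n, rfl⟩) (hQ n)
  have heq : ∀ n, y n ^ 2 = x n ^ 3 + a := fun n => eq_of (hxy n)
  have hy : ∀ n, nm p (y n) ≤ 1 := fun n => y_small p (heq n) hint (hx n)
  -- the bound
  set δ := nm p (a : ℚ) with hδ
  have hδ0 : 0 < δ := nm_pos p haQ
  set γ := δ * nm p (9 * a : ℚ) with hγ
  have h9 : nm p (9 * a : ℚ) ≤ δ := by
    rw [nm_mul]
    have : nm p ((9 : ℤ) : ℚ) ≤ 1 := nm_int p 9
    have h9' : nm p (9 : ℚ) ≤ 1 := by exact_mod_cast this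
    nlinarith
  have h90 : 0 < nm p (9 * a : ℚ) := nm_pos p (mul_ne_zero (by norm_num) haQ)
  have hγ0 : 0 < γ := mul_pos hδ0 h90
  have hp1 : (1 : ℝ) < p := by exact_mod_cast (Fact.out : p.Prime).one_lt
  obtain ⟨M, hM⟩ := exists_pow_lt_of_lt_one (show (0 : ℝ) < γ / 4 by positivity)
    (show ((p : ℝ)⁻¹) < 1 from inv_lt_one_of_one_lt₀ hp1)
  set ε : ℝ := ((p : ℝ)⁻¹) ^ M with hε
  have hε0 : 0 < ε := by positivity
  have hε1 : ε ≤ 1 := pow_le_one₀ (by positivity) (inv_le_one_of_one_le₀ hp1.le)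
  -- the pigeonhole principle
  have hkey : ∃ m n, n < m ∧ nm p (x m - x n) ≤ ε ∧ nm p (y m - y n) ≤ ε := by
    let X : ℕ → ℤ_[p] := fun n => ⟨(x n : ℚ_[p]), hx n⟩
    let Y : ℕ → ℤ_[p] := fun n => ⟨(y n : ℚ_[p]), hy n⟩
    have : NeZero (p ^ M) := ⟨pow_ne_zero _ (Fact.out : p.Prime).ne_zero⟩
    obtain ⟨m, n, hmn, hf⟩ := Finite.exists_ne_map_eq_of_infinite
      (fun n => ((PadicInt.toZModPow M (X n) : ZMod (p ^ M)), (PadicInt.toZModPow M (Y n) : ZMod (p ^ M))))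
    have hcl : ∀ (u v : ℤ_[p]), (PadicInt.toZModPow M u : ZMod (p ^ M)) = PadicInt.toZModPow M v →
        ‖u - v‖ ≤ ε := by
      intro u v huv
      have h1 : u - v ∈ RingHom.ker (PadicInt.toZModPow M : ℤ_[p] →+* ZMod (p ^ M)) := by
        rw [RingHom.mem_ker, map_sub, huv, sub_self]
      rw [PadicInt.ker_toZModPow] at h1
      have h2 := (PadicInt.norm_le_pow_iff_mem_span_pow (u - v) M).2 h1
      rw [hε, inv_pow]
      rw [zpow_neg, zpow_natCast] at h2
      exact h2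
    have hX : ∀ i j, (PadicInt.toZModPow M (X i) : ZMod (p ^ M)) = PadicInt.toZModPow M (X j) →
        nm p (x i - x j) ≤ ε := by
      intro i j hij
      have h3 := hcl _ _ hij
      unfold nm
      rw [Rat.cast_sub]
      exact h3
    have hY : ∀ i j, (PadicInt.toZModPow M (Y i) : ZMod (p ^ M)) = PadicInt.toZModPow M (Y j) →
        nm p (y i - y j) ≤ ε := by
      intro i j hij
      have h3 := hcl _ _ hij
      unfold nm
      rw [Rat.cast_sub]
      exact h3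
    simp only [Prod.mk.injEq] at hf
    rcases lt_or_gt_of_ne hmn with h | h
    · exact ⟨n, m, h, hX _ _ hf.1.symm, hY _ _ hf.2.symm⟩
    · exact ⟨m, n, h, hX _ _ hf.1, hY _ _ hf.2⟩
  obtain ⟨m, n, hmn, hxmn, hymn⟩ := hkey
  -- the difference
  have hxne : x m ≠ x n := by
    intro h
    have h4 := (Point.X_eq_iff (h₁ := hxy m) (h₂ := hxy n)).1 h
    rw [← hQ m, ← hQ n] at h4
    rcases h4 with h4 | h4
    · exact (hd m n hmn.ne').1 h4
    · exact (hd m n hmn.ne').2 h4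
  obtain ⟨x', y', h', hs, hx'⟩ := sub (hxy m) (hxy n) hxne
  have h5 : nm p x' ≤ 1 := by
    refine hcon (Q m - Q n) x' y' h' (Or.inr (Or.inr ⟨m, n, hmn, rfl⟩)) ?_
    rw [← hs, ← hQ m, ← hQ n]
  have h6 : nm p (((y m + y n) / (x m - x n)) ^ 2) ≤ 1 := by
    have e : ((y m + y n) / (x m - x n)) ^ 2 = x' + x m + x n := by rw [hx']; ring
    rw [e]
    exact nm_add_le p (nm_add_le p h5 (hx m)) (hx n)
  have h7 : nm p (y m + y n) ≤ ε := by
    rw [nm_pow, nm_div] at h6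
    have h8 : 0 < nm p (x m - x n) := nm_pos p (sub_ne_zero.2 hxne)
    have h10 : nm p (y m + y n) / nm p (x m - x n) ≤ 1 := by
      have h11 : 0 ≤ nm p (y m + y n) / nm p (x m - x n) := div_nonneg (nm_nonneg p _) h8.le
      nlinarith
    rw [div_le_one h8] at h10
    exact h10.trans hxmn
  have h12 : nm p (2 * y n) ≤ ε := by
    have e : 2 * y n = (y m + y n) - (y m - y n) := by ring
    rw [e]
    exact nm_sub_le p h7 hymn
  have h13 : nm p (y n) ≤ 2 * ε := by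
    rw [nm_mul] at h12
    have := nm_two_ge p
    nlinarith [nm_nonneg p (y n)]
  -- doubling
  have hyn : y n ≠ 0 := by
    intro h
    apply h2 n
    rw [hQ n]
    refine Point.add_self_of_Y_eq ?_
    rw [negY, h, neg_zero]
  obtain ⟨x'', y'', h'', hs', hx''⟩ := double (hxy n) hyn
  have h14 : nm p x'' ≤ 1 := by
    refine hcon (Q n + Q n) x'' y'' h'' (Or.inr (Or.inl ⟨n, rfl⟩)) ?_
    rw [← hs', ← hQ n]
  have h15 : nm p (x n) * nm p (x n ^ 3 - 8 * a) ≤ ε := by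
    rw [hx'', ← heq n, nm_div, nm_mul] at h14
    have e : (4 * y n ^ 2 : ℚ) = (2 * y n) ^ 2 := by ring
    rw [e, nm_pow] at h14
    have h16 : 0 < nm p (2 * y n) := nm_pos p (mul_ne_zero two_ne_zero hyn)
    rw [div_le_one (by positivity)] at h14
    nlinarith
  have h17 : nm p (y n ^ 2) < γ := by
    rw [nm_pow]
    have h18 : ε * 4 < γ := by linarith
    have h19 : nm p (y n) ≤ 1 := hy n
    have h20 := nm_nonneg p (y n)
    nlinarith
  have h21 : γ ≤ nm p (9 * a : ℚ) := by nlinarith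
  have h22 : nm p (x n ^ 3 - 8 * a) = nm p (9 * a : ℚ) := by
    have e : x n ^ 3 - 8 * a = -(9 * (a : ℚ) - y n ^ 2) := by rw [heq n]; ring
    rw [e, nm_neg, nm_sub]
    linarith
  have h23 : nm p (x n) ^ 3 = δ := by
    rw [← nm_pow]
    have e : x n ^ 3 = -((a : ℚ) - y n ^ 2) := by rw [heq n]; ring
    rw [e, nm_neg, nm_sub]
    linarith
  rw [h22] at h15
  have h24 : (nm p (x n) * nm p (9 * a : ℚ)) ^ 3 ≤ ε ^ 3 :=
    pow_le_pow_left₀ (mul_nonneg (nm_nonneg p _) h90.le) h15 3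
  rw [mul_pow, h23] at h24
  have h25 : ε ^ 3 < γ ^ 3 := pow_lt_pow_left₀ (by linarith) hε0.le (by norm_num)
  have h26 : γ ^ 3 ≤ δ * nm p (9 * a : ℚ) ^ 3 := by
    rw [hγ, mul_pow]
    have h27 : δ ^ 3 ≤ δ := by
      have h28 : δ ≤ 1 := hint
      nlinarith [mul_nonneg hδ0.le (sub_nonneg.2 h28), mul_nonneg (mul_nonneg hδ0.le hδ0.le)
        (sub_nonneg.2 h28)]
    exact mul_le_mul_of_nonneg_right h27 (by positivity)
  linarith

end Pool.Agent.X99.MC
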