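import Pool.Agent.X99.MC.Basic

/-!
# Mordell curves: `p`-adic sizes of the coordinates
-/

set_option autoImplicit false

namespace Pool.Agent.X99.MC

/-- the `p`-adic absolute value of a rational number -/
noncomputable def nm (p : ℕ) [Fact p.Prime] (x : ℚ) : ℝ := ‖(x : ℚ_[p])‖

variable (p : ℕ) [Fact p.Prime]

lemma nm_nonneg (x : ℚ) : 0 ≤ nm p x := norm_nonneg _

lemma nm_zero : nm p 0 = 0 := by simp [nm]

lemma nm_one : nm p 1 = 1 := by simp [nm]

lemma nm_mul (x y : ℚ) : nm p (x * y) = nm p x * nm p y := by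
  unfold nm
  rw [Rat.cast_mul, norm_mul]

lemma nm_pow (x : ℚ) (n : ℕ) : nm p (x ^ n) = nm p x ^ n := by
  unfold nm
  rw [Rat.cast_pow, norm_pow]

lemma nm_div (x y : ℚ) : nm p (x / y) = nm p x / nm p y := by
  unfold nm
  rw [Rat.cast_div, norm_div]

lemma nm_neg (x : ℚ) : nm p (-x) = nm p x := by
  unfold nm
  rw [Rat.cast_neg, norm_neg]

lemma nm_int (n : ℤ) : nm p (n : ℚ) ≤ 1 := by
  unfold nm
  have := Padic.norm_int_le_one (p := p) n
  simpa using this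

lemma nm_eq_zero {x : ℚ} : nm p x = 0 ↔ x = 0 := by
  unfold nm
  rw [norm_eq_zero]
  exact_mod_cast Iff.rfl

lemma nm_pos {x : ℚ} (h : x ≠ 0) : 0 < nm p x :=
  lt_of_le_of_ne (nm_nonneg p x) (fun h1 => h ((nm_eq_zero p).1 h1.symm))

lemma ne_of_nm_pos {x : ℚ} (h : 0 < nm p x) : x ≠ 0 := by
  rintro rfl
  rw [nm_zero] at h
  exact lt_irrefl _ h

/-- the larger summand determines the size -/
lemma nm_add {x y : ℚ} (h : nm p y < nm p x) : nm p (x + y) = nm p x := by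
  unfold nm at *
  rw [Rat.cast_add, Padic.add_eq_max_of_ne h.ne', max_eq_left h.le]

lemma nm_sub {x y : ℚ} (h : nm p y < nm p x) : nm p (x - y) = nm p x := by
  rw [sub_eq_add_neg]
  exact nm_add p (by rwa [nm_neg])

lemma nm_add_le {x y : ℚ} {c : ℝ} (hx : nm p x ≤ c) (hy : nm p y ≤ c) : nm p (x + y) ≤ c := by
  unfold nm at *
  rw [Rat.cast_add]
  exact (Padic.nonarchimedean _ _).trans (max_le hx hy)

lemma nm_sub_le {x y : ℚ} {c : ℝ} (hx : nm p x ≤ c) (hy : nm p y ≤ c) : nm p (x - y) ≤ c := by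
  rw [sub_eq_add_neg]
  exact nm_add_le p hx (by rwa [nm_neg])

lemma nm_add_lt {x y : ℚ} {c : ℝ} (hx : nm p x < c) (hy : nm p y < c) : nm p (x + y) < c := by
  unfold nm at *
  rw [Rat.cast_add]
  exact (Padic.nonarchimedean _ _).trans_lt (max_lt hx hy)

/-- points with large `x` -/
lemma y_big {b x y : ℚ} (h : y ^ 2 = x ^ 3 + b) (hx : nm p b < nm p x ^ 3) :
    nm p y ^ 2 = nm p x ^ 3 := by
  rw [← nm_pow, h, nm_add, nm_pow]
  rwa [nm_pow]

/-- points with integral `x` -/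
lemma y_small {b x y : ℚ} (h : y ^ 2 = x ^ 3 + b) (hb : nm p b ≤ 1) (hx : nm p x ≤ 1) :
    nm p y ≤ 1 := by
  have h1 : nm p y ^ 2 ≤ 1 := by
    rw [← nm_pow, h]
    refine nm_add_le p ?_ hb
    rw [nm_pow]
    exact pow_le_one₀ (nm_nonneg p x) hx
  nlinarith [nm_nonneg p y]

lemma nm_two_two : nm 2 2 = 1 / 2 := by
  have h := Padic.norm_p (p := 2)
  unfold nm
  push_cast at h ⊢
  rw [h]
  norm_num

lemma nm_three_three : nm 3 3 = 1 / 3 := by
  have h := Padic.norm_p (p := 3)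
  unfold nm
  push_cast at h ⊢
  rw [h]
  norm_num

lemma nm_nat_coprime {n : ℕ} (h : ¬ p ∣ n) : nm p (n : ℚ) = 1 := by
  unfold nm
  have h1 : ¬ ‖((n : ℤ) : ℚ_[p])‖ < 1 := by
    rw [Padic.norm_intCast_lt_one_iff]
    exact_mod_cast h
  have h2 := Padic.norm_int_le_one (p := p) (n : ℤ)
  have h3 : ‖((n : ℤ) : ℚ_[p])‖ = 1 := le_antisymm h2 (not_lt.1 h1)
  simpa using h3

/-- doubling multiplies the 2-adic size of a large `x` by four -/
lemma double_nm {b x : ℚ} (hx : nm 2 b < nm 2 x ^ 3) :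
    nm 2 (x * (x ^ 3 - 8 * b) / (4 * (x ^ 3 + b))) = 4 * nm 2 x := by
  have h0 : 0 ≤ nm 2 b := nm_nonneg 2 b
  have hx0 : 0 < nm 2 x := by
    have h1 : 0 < nm 2 x ^ 3 := lt_of_le_of_lt h0 hx
    by_contra h2
    have h3 : nm 2 x = 0 := le_antisymm (not_lt.1 h2) (nm_nonneg 2 x)
    rw [h3] at h1
    norm_num at h1
  have h8 : nm 2 8 = 1 / 8 := by
    have : (8 : ℚ) = 2 ^ 3 := by norm_num
    rw [this, nm_pow, nm_two_two]
    norm_num
  have h4 : nm 2 4 = 1 / 4 := by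
    have : (4 : ℚ) = 2 ^ 2 := by norm_num
    rw [this, nm_pow, nm_two_two]
    norm_num
  rw [nm_div, nm_mul, nm_mul, nm_sub, nm_add, nm_pow, h4]
  · field_simp
  · rwa [nm_pow]
  · rw [nm_mul, h8, nm_pow]
    nlinarith

end Pool.Agent.X99.MC
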